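import Pool.Agent.H444R2.SE.All

set_option autoImplicit false

namespace Pool.Agent.Results.MP_3976d4_co.HeightTwo

/-!
Posets of finite length with a special element `s` of height at most two (there is no chain
`x < y < z < s`; the poset above `s` and away from `s` is arbitrary, and there may be infinitely
many elements below `s`) have the fixed point property.

Proof idea. As in the companion file, a fixed point free order preserving map yields a ray of
chains `σ` of the poset whose label sets `{s ∧ f d | d ∈ σ, s ∧ f d exists}` wander off. The
comparability graph of `{x | x < s}` is now bipartite and one dimensional. The labels lift to its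
universal cover (a tree, described by reduced words): the lift of the label of `d` is the reduced
form of the word `β s, β t₁, …, β tₙ`, where `t₁ < … < tₙ = d` are the elements of `σ` up to `d`
and `β t` is the value of `b` at the end of the orbit of `t` under `e ↦ s ∨ f e`. These words have
bounded length, labels of one chain are equal or adjacent, and the labels of the two chains of a
pair are nested. So one obtains a ray of bounded words in a tree, which is impossible.
-/

theorem result :
    ∀ (P : Type) [PartialOrder P],
      (∃ n : ℕ, ∀ c : Finset P, IsChain (· ≤ ·) (c : Set P) → c.card ≤ n) →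
      ∀ s : P,
        (∀ x : P, (∃ z : P, IsLUB ({s, x} : Set P) z) ∨ (∃ z : P, IsGLB ({s, x} : Set P) z)) →
        (∀ x y : P, x < y → (¬ ∃ z : P, IsGLB ({s, x} : Set P) z) →
          ∀ m : P, IsGLB ({s, y} : Set P) m → ∃ z : P, IsLUB ({m, x} : Set P) z) →
        (∀ x y z : P, x < y → y < z → ¬ z < s) →
        ∀ f : P → P, Monotone f → ∃ x : P, f x = x := by
  intro P _ hlen s h1 h2 h3 f hf
  exact Pool.Agent.H444R2.SE.all_F4 P hlen s h1 h2 (Or.inr h3) f hf

end Pool.Agent.Results.MP_3976d4_co.HeightTwo
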