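import Pool.Agent.H444R2.SE.All

set_option autoImplicit false

namespace Pool.Agent.Results.MP_3976d4_co.LatticeCoheightTwo

/-!
The lattice form of the question, with a condition on the upper side. Let `L` be a bounded lattice
of finite length and `s ≠ 0, 1` an element such that there is no chain `s < x < y < z < 1`. Then
`L` minus `0`, `1` and all complements of `s` has the fixed point property. (The theorem
`HeightTwo` of this folder, applied to the order dual of this poset: for lattices both the element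
`s` and its dual are special.)
-/

/-- The elements of `L` different from `⊥`, `⊤` and from all complements of `s`. -/
def Core {L : Type} [Lattice L] [BoundedOrder L] (s : L) : Type :=
  {x : L // x ≠ ⊥ ∧ x ≠ ⊤ ∧ ¬ IsCompl s x}

instance {L : Type} [Lattice L] [BoundedOrder L] (s : L) : PartialOrder (Core s) :=
  inferInstanceAs (PartialOrder {x : L // x ≠ ⊥ ∧ x ≠ ⊤ ∧ ¬ IsCompl s x})

theorem result :
    ∀ (L : Type) [Lattice L] [BoundedOrder L],
      (∃ n : ℕ, ∀ c : Finset L, IsChain (· ≤ ·) (c : Set L) → c.card ≤ n) →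
      ∀ s : L, s ≠ ⊥ → s ≠ ⊤ →
        (∀ x y z : L, s < x → x < y → y < z → z = ⊤) →
        ∀ f : Core s → Core s, Monotone f → ∃ x : Core s, f x = x := by
  classical
  intro L _ _ hlen s hs0 hs1 hco f hf
  have hsc : ¬ IsCompl s s := by
    intro h
    have h1 := h.inf_eq_bot
    rw [inf_idem] at h1
    exact hs0 h1
  let s' : Core s := ⟨s, hs0, hs1, hsc⟩
  -- joins and meets with `s` in the core
  have hinf : ∀ x : Core s, s ⊓ x.1 ≠ ⊥ → ∃ z : Core s, IsGLB ({s', x} : Set (Core s)) z := by
    intro x hx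
    have hz : s ⊓ x.1 ≠ ⊥ ∧ s ⊓ x.1 ≠ ⊤ ∧ ¬ IsCompl s (s ⊓ x.1) := by
      refine ⟨hx, ?_, ?_⟩
      · intro h
        have h1 : s ⊓ x.1 ≤ s := inf_le_left
        rw [h] at h1
        exact hs1 (top_le_iff.1 h1)
      · intro h
        have h1 := h.inf_eq_bot
        rw [← inf_assoc, inf_idem] at h1
        exact hx h1
    refine ⟨⟨_, hz⟩, ?_, ?_⟩
    · intro y hy
      simp only [Set.mem_insert_iff, Set.mem_singleton_iff] at hy
      rcases hy with hy | hy
      · rw [hy]; exact inf_le_left
      · rw [hy]; exact inf_le_right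
    · intro y hy
      have h1 : y.1 ≤ s := hy (Set.mem_insert _ _)
      have h2 : y.1 ≤ x.1 := hy (Set.mem_insert_of_mem _ rfl)
      exact le_inf h1 h2
  have hsup : ∀ x : Core s, s ⊔ x.1 ≠ ⊤ → ∃ z : Core s, IsLUB ({s', x} : Set (Core s)) z := by
    intro x hx
    have hz : s ⊔ x.1 ≠ ⊥ ∧ s ⊔ x.1 ≠ ⊤ ∧ ¬ IsCompl s (s ⊔ x.1) := by
      refine ⟨?_, hx, ?_⟩
      · intro h
        have h1 : s ≤ s ⊔ x.1 := le_sup_left
        rw [h] at h1
        exact hs0 (le_bot_iff.1 h1)
      · intro h
        have h1 := h.sup_eq_top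
        rw [← sup_assoc, sup_idem] at h1
        exact hx h1
    refine ⟨⟨_, hz⟩, ?_, ?_⟩
    · intro y hy
      simp only [Set.mem_insert_iff, Set.mem_singleton_iff] at hy
      rcases hy with hy | hy
      · rw [hy]; exact le_sup_left
      · rw [hy]; exact le_sup_right
    · intro y hy
      have h1 : s ≤ y.1 := hy (Set.mem_insert _ _)
      have h2 : x.1 ≤ y.1 := hy (Set.mem_insert_of_mem _ rfl)
      exact sup_le h1 h2
  have hmain := Pool.Agent.H444R2.SE.all_F4 (Core s)ᵒᵈ ?_ (OrderDual.toDual s') ?_ ?_ (Or.inr ?_)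
    (fun x => OrderDual.toDual (f (OrderDual.ofDual x))) ?_
  · obtain ⟨x, hx⟩ := hmain
    exact ⟨OrderDual.ofDual x, hx⟩
  · obtain ⟨n, hn⟩ := hlen
    refine ⟨n, ?_⟩
    intro c hc
    have hinj : Function.Injective (fun x : (Core s)ᵒᵈ => (OrderDual.ofDual x).1) := by
      intro x y h
      exact Subtype.ext h
    have h1 := hn (c.image (fun x : (Core s)ᵒᵈ => (OrderDual.ofDual x).1)) (by
      intro x hx y hy hxy
      rw [Finset.mem_coe, Finset.mem_image] at hx hy
      obtain ⟨x', hx', rfl⟩ := hx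
      obtain ⟨y', hy', rfl⟩ := hy
      have hne : x' ≠ y' := fun h => hxy (by rw [h])
      rcases hc hx' hy' hne with h | h
      · exact Or.inr h
      · exact Or.inl h)
    rwa [Finset.card_image_of_injective _ hinj] at h1
  · intro x
    by_cases h : s ⊓ (OrderDual.ofDual x).1 = ⊥
    · have h2 : s ⊔ (OrderDual.ofDual x).1 ≠ ⊤ := by
        intro h3
        exact (OrderDual.ofDual x).2.2.2 (IsCompl.of_eq h h3)
      obtain ⟨z, hz⟩ := hsup (OrderDual.ofDual x) h2
      exact Or.inr ⟨OrderDual.toDual z, hz.dual⟩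
    · obtain ⟨z, hz⟩ := hinf (OrderDual.ofDual x) h
      exact Or.inl ⟨OrderDual.toDual z, hz.dual⟩
  · intro x y hxy hx m hm
    have hyx : (OrderDual.ofDual y).1 < (OrderDual.ofDual x).1 := hxy
    have hm' : IsLUB ({s', OrderDual.ofDual y} : Set (Core s)) (OrderDual.ofDual m) := hm
    have hsm : s ≤ (OrderDual.ofDual m).1 := hm'.1 (Set.mem_insert _ _)
    have hym : (OrderDual.ofDual y).1 ≤ (OrderDual.ofDual m).1 :=
      hm'.1 (Set.mem_insert_of_mem _ rfl)
    have hz : (OrderDual.ofDual m).1 ⊓ (OrderDual.ofDual x).1 ≠ ⊥ ∧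
        (OrderDual.ofDual m).1 ⊓ (OrderDual.ofDual x).1 ≠ ⊤ ∧
        ¬ IsCompl s ((OrderDual.ofDual m).1 ⊓ (OrderDual.ofDual x).1) := by
      refine ⟨?_, ?_, ?_⟩
      · intro h
        have h1 := le_inf hym hyx.le
        rw [h] at h1
        exact (OrderDual.ofDual y).2.1 (le_bot_iff.1 h1)
      · intro h
        have h1 : (OrderDual.ofDual m).1 ⊓ (OrderDual.ofDual x).1 ≤ (OrderDual.ofDual m).1 :=
          inf_le_left
        rw [h] at h1
        exact (OrderDual.ofDual m).2.2.1 (top_le_iff.1 h1)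
      · intro h
        have h1 := h.sup_eq_top
        have h2 : s ⊔ ((OrderDual.ofDual m).1 ⊓ (OrderDual.ofDual x).1) ≤
            (OrderDual.ofDual m).1 := sup_le hsm inf_le_left
        rw [h1] at h2
        exact (OrderDual.ofDual m).2.2.1 (top_le_iff.1 h2)
    refine ⟨OrderDual.toDual (⟨_, hz⟩ : Core s), ?_⟩
    have hglb : IsGLB ({OrderDual.ofDual m, OrderDual.ofDual x} : Set (Core s))
        (⟨_, hz⟩ : Core s) := by
      constructor
      · intro w hw
        simp only [Set.mem_insert_iff, Set.mem_singleton_iff] at hw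
        rcases hw with hw | hw
        · rw [hw]; exact inf_le_left
        · rw [hw]; exact inf_le_right
      · intro w hw
        have h1 : w.1 ≤ (OrderDual.ofDual m).1 := hw (Set.mem_insert _ _)
        have h2 : w.1 ≤ (OrderDual.ofDual x).1 := hw (Set.mem_insert_of_mem _ rfl)
        exact le_inf h1 h2
    exact hglb.dual
  · intro x y z hxy hyz hzs
    have h1 : s < (OrderDual.ofDual z).1 := hzs
    have h2 : (OrderDual.ofDual z).1 < (OrderDual.ofDual y).1 := hyz
    have h3 : (OrderDual.ofDual y).1 < (OrderDual.ofDual x).1 := hxy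
    exact (OrderDual.ofDual x).2.2.1 (hco _ _ _ h1 h2 h3)
  · intro x y hxy
    exact hf hxy

end Pool.Agent.Results.MP_3976d4_co.LatticeCoheightTwo
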