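import Pool.Agent.H444R2.SE.All

set_option autoImplicit false

namespace Pool.Agent.Results.MP_3976d4_co.NoBoundedRay

/-!
Posets of finite length with a special element `s`: the fixed point property holds if no ray
(one-way infinite path) of the comparability graph of `{x | x < s}` stays within bounded distance
of a vertex. This holds for instance if `{x | x < s}` is finite, or if its comparability graph is
locally finite, or has no infinite path (for example if `{x | x < s}` is an antichain).

Proof idea. Let `f` be an order preserving map without fixed points. With
`E = {x | s ∧ f x does not exist}`, `a e = s ∨ f e`, `b d = s ∧ f d`, `c e d = b d ∨ f e` the sets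
`K σ` (`σ` a chain) consisting of `s`, all `f x`, `a e`, `b d`, `c e d` are acyclic carriers, so the
chain map of `f` is chain homotopic to a constant, by a homotopy `h` carried by `K`. The pairs
`(σ, τ)`, `τ` a chain in `K σ` with `σ` a facet of `τ`, form a graph on the set of chains, and
evaluating the trace of the homotopy formula over a finite set `F` of chains containing `{s}` gives
1 on one side and an even number on the other unless some pair leaves `F`. Hence the component of
`{s}` is infinite. Every `τ` is determined by boundedly many steps from the labels `b d`, `d ∈ σ`,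
so there is a ray in this graph along which the label sets `{b d | d ∈ σ}` wander off. Label sets
are chains below `s`, consecutive ones are nested, and all of them lie within bounded distance
from a fixed vertex of the comparability graph of `{x | x < s}`; this gives a bounded ray there.
-/

/-- The comparability graph of `{x | x < s}`: `x` and `y` are adjacent if both are less than `s`
and one of them is less than the other. -/
def below {P : Type} [PartialOrder P] (s : P) : SimpleGraph P where
  Adj x y := x < s ∧ y < s ∧ (x < y ∨ y < x)
  symm := ⟨fun _ _ h => ⟨h.2.1, h.1, h.2.2.symm⟩⟩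
  loopless := ⟨fun x h => by rcases h.2.2 with h | h <;> exact lt_irrefl x h⟩

theorem result :
    ∀ (P : Type) [PartialOrder P],
      (∃ n : ℕ, ∀ c : Finset P, IsChain (· ≤ ·) (c : Set P) → c.card ≤ n) →
      ∀ s : P,
        (∀ x : P, (∃ z : P, IsLUB ({s, x} : Set P) z) ∨ (∃ z : P, IsGLB ({s, x} : Set P) z)) →
        (∀ x y : P, x < y → (¬ ∃ z : P, IsGLB ({s, x} : Set P) z) →
          ∀ m : P, IsGLB ({s, y} : Set P) m → ∃ z : P, IsLUB ({m, x} : Set P) z) →
        (∀ (m : P) (k : ℕ), ¬ ∃ r : ℕ → P, Function.Injective r ∧
          (∀ i, (below s).Adj (r i) (r (i + 1))) ∧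
          ∀ i, ∃ p : (below s).Walk m (r i), p.length ≤ k) →
        ∀ f : P → P, Monotone f → ∃ x : P, f x = x := by
  intro P _ hlen s h1 h2 h3 f hf
  refine Pool.Agent.H444R2.SE.all_F4 P hlen s h1 h2 (Or.inl ?_) f hf
  rintro m k ⟨r, hr1, hr2⟩
  exact h3 m k ⟨r, hr1, fun i => (hr2 i).1, fun i => (hr2 i).2⟩

end Pool.Agent.Results.MP_3976d4_co.NoBoundedRay
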